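import Pool.Agent.Y677.RSZ.Stm
import Pool.Agent.TH423.SH.FLIP
import Pool.Agent.TH423.SH.FLLP

/-!
Project RSZ (job 1114): fundamental lemma count for the numbers `F (W (K + t_i) + b)`, `K` in a class
modulo `D` (adapted from `Pool/Agent/Y814/PSP/C1.lean`).
-/

set_option autoImplicit false

namespace Pool.Agent.Y852.RSZ

open Finset
open Pool.Agent.TH423.SH Pool.Agent.TH423.SH.FLIP
open Pool.Agent.Y677.RSZ

/-- values at congruent arguments -/
theorem per_mod {F : ℤ → ℤ} {p : ℕ} (h : ∀ n : ℤ, (p : ℤ) ∣ F (n + p) - F n) {a b : ℤ}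
    (hab : (p : ℤ) ∣ a - b) : (p : ℤ) ∣ F a - F b := by
  obtain ⟨k, hk⟩ := hab
  have key : ∀ k : ℤ, ∀ b : ℤ, (p : ℤ) ∣ F (b + p * k) - F b := by
    intro k
    induction k using Int.induction_on with
    | zero => intro b; simp
    | succ i ih =>
      intro b
      have h1 := h (b + p * i)
      have h2 := dvd_add h1 (ih b)
      rw [show b + (p : ℤ) * ((i : ℤ) + 1) = b + p * i + p by ring]
      simpa using h2
    | pred i ih =>
      intro b
      have h1 := h (b + p * (-(i : ℤ) - 1))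
      rw [show b + (p : ℤ) * (-(i : ℤ) - 1) + p = b + p * (-(i : ℤ)) by ring] at h1
      have h2 := dvd_sub (ih b) h1
      have e : F (b + p * (-(i : ℤ))) - F b -
          (F (b + p * (-(i : ℤ))) - F (b + p * (-(i : ℤ) - 1))) =
          F (b + p * (-(i : ℤ) - 1)) - F b := by ring
      rwa [e] at h2
  have := key k b
  rwa [← hk, add_sub_cancel] at this

theorem per_dvd {F : ℤ → ℤ} {p : ℕ} (h : ∀ n : ℤ, (p : ℤ) ∣ F (n + p) - F n) {a b : ℤ}
    (hab : (p : ℤ) ∣ a - b) : (p : ℤ) ∣ F a ↔ (p : ℤ) ∣ F b := by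
  have h1 := per_mod h hab
  constructor
  · intro h2
    have := dvd_sub h2 h1
    rwa [sub_sub_cancel] at this
  · intro h2
    have := dvd_add h1 h2
    rwa [sub_add_cancel] at this

/-- the forbidden classes modulo `p` -/
def OmC (F : ℤ → ℤ) (W b : ℕ) {m : ℕ} (t : Fin m → ℕ) (p : ℕ) : Finset ℕ :=
  (range p).filter (fun r : ℕ => ∃ i, (p : ℤ) ∣ F ((W * (r + t i) + b : ℕ) : ℤ))

theorem card_one_le {F : ℤ → ℤ} {p : ℕ} (hp : p.Prime) (h : ∀ n : ℤ, (p : ℤ) ∣ F (n + p) - F n)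
    (W b t : ℕ) (hW : ¬ p ∣ W) :
    ((range p).filter (fun r : ℕ => (p : ℤ) ∣ F ((W * (r + t) + b : ℕ) : ℤ))).card ≤ rt F p := by
  classical
  unfold rt
  refine Finset.card_le_card_of_injOn (fun r => (W * (r + t) + b) % p) ?_ ?_
  · intro r hr
    rw [mem_coe, mem_filter, mem_range] at hr
    simp only [mem_coe, mem_filter, mem_range]
    refine ⟨Nat.mod_lt _ hp.pos, ?_⟩
    have h1 : (p : ℤ) ∣ ((W * (r + t) + b : ℕ) : ℤ) - (((W * (r + t) + b) % p : ℕ) : ℤ) := by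
      have := Nat.dvd_sub_mod (n := p) (W * (r + t) + b)
      have h2 : (W * (r + t) + b) % p ≤ W * (r + t) + b := Nat.mod_le _ _
      have h3 : ((p : ℕ) : ℤ) ∣ ((W * (r + t) + b - (W * (r + t) + b) % p : ℕ) : ℤ) := by
        exact_mod_cast this
      rwa [Nat.cast_sub h2] at h3
    exact (per_dvd h h1).1 hr.2
  · intro r hr r' hr' hrr
    rw [mem_coe, mem_filter, mem_range] at hr hr'
    simp only at hrr
    have hpi : Prime (p : ℤ) := Nat.prime_iff_prime_int.1 hp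
    have e1 : (p : ℤ) ∣ ((W * (r' + t) + b : ℕ) : ℤ) - ((W * (r + t) + b : ℕ) : ℤ) :=
      Nat.modEq_iff_dvd.1 hrr
    have e2 : (p : ℤ) ∣ (W : ℤ) * ((r' : ℤ) - r) := by
      have e : ((W * (r' + t) + b : ℕ) : ℤ) - ((W * (r + t) + b : ℕ) : ℤ) =
          (W : ℤ) * ((r' : ℤ) - r) := by
        push_cast
        ring
      rwa [e] at e1
    have e3 : ¬ (p : ℤ) ∣ (W : ℤ) := by
      intro h4
      exact hW (by exact_mod_cast h4)
    have e5 : (p : ℤ) ∣ (r' : ℤ) - r := (hpi.dvd_or_dvd e2).resolve_left e3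
    have e6 : r % p = r' % p := Nat.modEq_iff_dvd.2 e5
    rwa [Nat.mod_eq_of_lt hr.1, Nat.mod_eq_of_lt hr'.1] at e6

theorem card_OmC_le {g : ℕ} {F : ℤ → ℤ} (hF : Sys g F) (W b : ℕ) {m : ℕ} (t : Fin m → ℕ) {p : ℕ}
    (hp : p.Prime) (hW : ¬ p ∣ W) : (OmC F W b t p).card ≤ g * m := by
  classical
  have h1 : OmC F W b t p ⊆ univ.biUnion (fun i : Fin m =>
      (range p).filter (fun r : ℕ => (p : ℤ) ∣ F ((W * (r + t i) + b : ℕ) : ℤ))) := by
    intro r hr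
    unfold OmC at hr
    rw [mem_filter] at hr
    obtain ⟨hr1, i, hi⟩ := hr
    rw [mem_biUnion]
    exact ⟨i, mem_univ i, mem_filter.2 ⟨hr1, hi⟩⟩
  refine (card_le_card h1).trans (card_biUnion_le.trans ?_)
  have h2 : ∀ i ∈ (univ : Finset (Fin m)),
      ((range p).filter (fun r : ℕ => (p : ℤ) ∣ F ((W * (r + t i) + b : ℕ) : ℤ))).card ≤ g :=
    fun i _ => (card_one_le hp (hF.per p hp) W b (t i) hW).trans (hF.root p hp).1
  calc ∑ i : Fin m, ((range p).filter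
        (fun r : ℕ => (p : ℤ) ∣ F ((W * (r + t i) + b : ℕ) : ℤ))).card
      ≤ ∑ _i : Fin m, g := sum_le_sum h2
    _ = g * m := by simp [mul_comm]

theorem mod_OmC {g : ℕ} {F : ℤ → ℤ} (hF : Sys g F) (W b : ℕ) {m : ℕ} (t : Fin m → ℕ) {p : ℕ}
    (hp : p.Prime) (K : ℕ) :
    K % p ∉ OmC F W b t p ↔ ∀ i, ¬ (p : ℤ) ∣ F ((W * (K + t i) + b : ℕ) : ℤ) := by
  unfold OmC
  rw [mem_filter, mem_range]
  have h1 : K % p < p := Nat.mod_lt _ hp.pos
  simp only [h1, true_and, not_exists]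
  refine forall_congr' fun i => not_congr ?_
  have h2 : W * (K % p + t i) + b ≡ W * (K + t i) + b [MOD p] := by
    refine Nat.ModEq.add_right b ?_
    exact ((Nat.mod_modEq K p).add_right (t i)).mul_left W
  exact per_dvd (hF.per p hp) (Nat.modEq_iff_dvd.1 h2.symm)

theorem c1 : S_C1 := by
  classical
  obtain ⟨C0, hC0, hF⟩ := fll
  refine ⟨2 * C0 + 4, by omega, ?_⟩
  intro g m b W hb hW hWp F hSys t b' J q a M L hq hPq
  set κ := g * m with hκ
  set P := PS W (2 ^ 2 ^ J) with hP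
  have hPmem0 : ∀ p ∈ P, ¬ p ∣ W := by
    intro p hp
    rw [hP, PS, mem_filter, mem_Icc] at hp
    exact hp.2.2
  have hPmem : ∀ p ∈ P, p.Prime ∧ (2 * C0 + 4) * (κ + 1) < p ∧ p ≤ 2 ^ 2 ^ J := by
    intro p hp
    rw [hP, PS, mem_filter, mem_Icc] at hp
    refine ⟨hp.2.1, ?_, hp.1.2⟩
    by_contra hcon
    exact hp.2.2 (hWp p hp.2.1 (not_lt.1 hcon))
  have hOm : ∀ p ∈ P, (OmC F W b' t p).card ≤ κ ∧ ∀ c ∈ OmC F W b' t p, c < p := by
    intro p hp
    refine ⟨card_OmC_le hSys W b' t (hPmem p hp).1 (hPmem0 p hp), ?_⟩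
    intro c hc
    unfold OmC at hc
    exact mem_range.1 (mem_filter.1 hc).1
  have hC : C0 * (κ + 1) ≤ (2 * C0 + 4) * (κ + 1) := Nat.mul_le_mul_right _ (by omega)
  have hq' : (0 : ℝ) < q := by exact_mod_cast hq
  have hA : 0 ≤ (L : ℝ) / q := div_nonneg (Nat.cast_nonneg L) hq'.le
  have h1 := hF κ b J ((2 * C0 + 4) * (κ + 1)) P (fun p => 1 / (p : ℝ)) (OmC F W b' t)
    (hC.trans hb) hC hPmem (fun p hp => (hOm p hp).1)
    (by
      intro p hp
      have hp2 : (2 : ℝ) ≤ p := by exact_mod_cast (hPmem p hp).1.two_le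
      refine ⟨by positivity, ?_⟩
      apply one_div_le_one_div_of_le (by linarith)
      linarith)
    ((Ioc M (M + L)).filter (fun n => n % q = a % q)) (fun _ => 1) ((L : ℝ) / q) (fun _ => 1)
    (fun _ _ => zero_le_one) hA (fun _ => zero_le_one)
    (by
      intro T hT _ c hc
      obtain ⟨r, hr⟩ := crt_set q a c T (fun p hp => ⟨(hPmem p (hT hp)).1, hPq p (hT hp)⟩)
        (fun p hp => (hOm p (hT hp)).2 _ (hc p hp))
      rw [sum_const, nsmul_eq_mul, mul_one, filter_filter]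
      have e1 : (Ioc M (M + L)).filter (fun n => n % q = a % q ∧ ∀ p ∈ T, n % p = c p) =
          (Ioc M (M + L)).filter (fun n => n ≡ r [MOD q * ∏ p ∈ T, p]) :=
        filter_congr fun n _ => hr n
      have hpos : 0 < q * ∏ p ∈ T, p :=
        Nat.mul_pos hq (Finset.prod_pos fun p hp => (hPmem p (hT hp)).1.pos)
      have h2 := cnt_Ioc M (M + L) (q * ∏ p ∈ T, p) r (by omega) hpos
      rw [e1]
      have e2 : (((M + L : ℕ) : ℝ) - M) / ((q * ∏ p ∈ T, p : ℕ) : ℝ) =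
          (L : ℝ) / q * ∏ p ∈ T, 1 / (p : ℝ) := by
        push_cast
        rw [← div_div, div_eq_mul_inv _ (∏ p ∈ T, (p : ℝ)), ← prod_inv_distrib,
          show ((M : ℝ) + L - M) = L by ring]
        simp only [one_div]
      rw [e2] at h2
      exact h2)
  have e3 : ∏ p ∈ P, (1 - ((OmC F W b' t p).card : ℝ) * (1 / (p : ℝ))) =
      ∏ p ∈ P, (1 - (rhoT F W b' t p : ℝ) / p) := by
    apply prod_congr rfl
    intro p _
    rw [mul_one_div]
    unfold OmC rhoT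
    rfl
  rw [e3, sum_const, nsmul_eq_mul, mul_one, filter_filter] at h1
  have e4 : (Ioc M (M + L)).filter (fun n => n % q = a % q ∧ ∀ p ∈ P, n % p ∉ OmC F W b' t p) =
      (Ioc M (M + L)).filter (fun K => K % q = a % q ∧
        ∀ p ∈ P, ∀ i, ¬ (p : ℤ) ∣ F ((W * (K + t i) + b' : ℕ) : ℤ)) := by
    refine filter_congr fun n _ => ?_
    refine and_congr Iff.rfl ?_
    constructor
    · intro h p hp
      exact (mod_OmC hSys W b' t (hPmem p hp).1 n).1 (h p hp)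
    · intro h p hp
      exact (mod_OmC hSys W b' t (hPmem p hp).1 n).2 (h p hp)
  rw [e4] at h1
  set Y : ℕ := (2 ^ 2 ^ J) ^ (C0 * b) with hY
  suffices hs : ((J : ℝ) + 2) * ∑ T ∈ P.powerset.filter (fun T : Finset ℕ => ∏ p ∈ T, p ≤ Y),
      (κ : ℝ) ^ T.card * 1 ≤ ((2 : ℝ) ^ 2 ^ J) ^ ((2 * C0 + 4) * b) by
    have hgen : ∀ s : Finset ℕ, (∀ K, K ∈ s ↔ (K ∈ Ioc M (M + L) ∧ (K % q = a % q ∧
        ∀ p ∈ P, ∀ i, ¬ (p : ℤ) ∣ F ((W * (K + t i) + b' : ℕ) : ℤ)))) →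
        |(s.card : ℝ) - (L : ℝ) / q * ∏ p ∈ P, (1 - (rhoT F W b' t p : ℝ) / p)| ≤
          (1 / 2 : ℝ) ^ b * ((L : ℝ) / q * ∏ p ∈ P, (1 - (rhoT F W b' t p : ℝ) / p)) +
            ((2 : ℝ) ^ 2 ^ J) ^ ((2 * C0 + 4) * b) := by
      intro s hs'
      have e5 : s = (Ioc M (M + L)).filter (fun K => K % q = a % q ∧
          ∀ p ∈ P, ∀ i, ¬ (p : ℤ) ∣ F ((W * (K + t i) + b' : ℕ) : ℤ)) := by
        ext K
        rw [hs' K, mem_filter]
      rw [e5]
      exact h1.trans (add_le_add le_rfl hs)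
    refine hgen _ (fun K => ?_)
    simp only [mem_filter]
  have hterm : ∀ T ∈ P.powerset.filter (fun T : Finset ℕ => ∏ p ∈ T, p ≤ Y),
      ((κ : ℝ) ^ T.card * 1) ≤ (Y : ℝ) := by
    intro T hT
    rw [mem_filter, mem_powerset] at hT
    rw [mul_one]
    have h2 : κ ^ T.card ≤ ∏ p ∈ T, p := by
      rw [← prod_const]
      apply prod_le_prod'
      intro p hp
      have h3 := (hPmem p (hT.1 hp)).2.1
      have h4 : κ + 1 ≤ (2 * C0 + 4) * (κ + 1) := Nat.le_mul_of_pos_left _ (by omega)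
      omega
    exact_mod_cast h2.trans hT.2
  have hJ : (J : ℝ) + 2 ≤ ((2 : ℝ) ^ 2 ^ J) ^ 2 := by
    have h2 : J + 2 ≤ (2 ^ 2 ^ J) ^ 2 := by
      have h3 : J < 2 ^ J := Nat.lt_two_pow_self
      have h4 : 2 ^ J < 2 ^ 2 ^ J := Nat.lt_two_pow_self
      have h5 : 2 ≤ 2 ^ 2 ^ J := by
        calc 2 = 2 ^ 1 := rfl
          _ ≤ 2 ^ 2 ^ J := Nat.pow_le_pow_right (by norm_num) (Nat.one_le_two_pow)
      nlinarith
    exact_mod_cast h2
  have hb4 : 4 ≤ 4 * b := by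
    have : 1 ≤ (2 * C0 + 4) * (κ + 1) := Nat.mul_pos (by omega) (by omega)
    omega
  have hone : (1 : ℝ) ≤ (2 : ℝ) ^ 2 ^ J := one_le_pow₀ (by norm_num)
  calc ((J : ℝ) + 2) * ∑ T ∈ P.powerset.filter (fun T : Finset ℕ => ∏ p ∈ T, p ≤ Y),
        (κ : ℝ) ^ T.card * 1
      ≤ ((J : ℝ) + 2) * ((Y : ℝ) ^ 2) := by
        apply mul_le_mul_of_nonneg_left _ (by positivity)
        calc ∑ T ∈ P.powerset.filter (fun T : Finset ℕ => ∏ p ∈ T, p ≤ Y), (κ : ℝ) ^ T.card * 1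
            ≤ ∑ _T ∈ P.powerset.filter (fun T : Finset ℕ => ∏ p ∈ T, p ≤ Y), (Y : ℝ) :=
              sum_le_sum hterm
          _ = ((P.powerset.filter (fun T : Finset ℕ => ∏ p ∈ T, p ≤ Y)).card : ℝ) * Y := by
              rw [sum_const, nsmul_eq_mul]
          _ ≤ (Y : ℝ) * Y := by
              apply mul_le_mul_of_nonneg_right _ (by positivity)
              exact_mod_cast Pool.Agent.TH423.SH.FLIP.card_le P (fun p hp => (hPmem p hp).1) Y
          _ = (Y : ℝ) ^ 2 := by ring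
    _ ≤ ((2 : ℝ) ^ 2 ^ J) ^ 2 * (Y : ℝ) ^ 2 := by
        apply mul_le_mul_of_nonneg_right hJ (by positivity)
    _ = ((2 : ℝ) ^ 2 ^ J) ^ (2 + 2 * (C0 * b)) := by
        rw [hY]
        push_cast
        rw [pow_add, mul_comm 2 (C0 * b), pow_mul _ (C0 * b) 2]
    _ ≤ ((2 : ℝ) ^ 2 ^ J) ^ ((2 * C0 + 4) * b) := by
        apply pow_le_pow_right₀ hone
        have : (2 * C0 + 4) * b = 2 * (C0 * b) + 4 * b := by ring
        omega

end Pool.Agent.Y852.RSZ
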